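import Pool.Agent.Q123.ML.Sym

/-!
# The second symbolic power of a matroid ideal with circuits of one size is level

Let `M` be a matroid on `n` elements, `I` its Stanley-Reisner ideal, `J` the second symbolic power of
`I` and `c = n - rank M ≥ 1` the grade of `J`. Then `Tor_c(R/J, K) = Tor_{c-1}(J, K)` is nonzero at most in
the multidegrees `1_E + 1_C`, where `C` is a circuit and `E` is the set of the variables which occur in
`I`. So if all circuits of `M` have the same size, `Tor_c(R/J, K)` is concentrated in a single degree: the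
Cohen-Macaulay ring `R/J` is level.
-/

set_option autoImplicit false

open Pool.Agent.Q123.ML Pool.Agent.Q123.KB Pool.Agent.H677R3.EdgeReg

namespace Pool.Agent.Results.MP_d6b0b9_al.SecondSymbolicPowerLevel

/-- `Tor_c(R/J, K) = Tor_{c-1}(J, K)` (where `c ≥ 1`) is concentrated in a single degree. -/
def TopTorInOneDegree {K : Type*} [Field K] {n : ℕ} (J : Ideal (MvPolynomial (Fin n) K)) (c : ℕ) :
    Prop :=
  ∃ d : ℕ, ∀ b : Fin n →₀ ℕ, gradedBetti J (c - 1) b ≠ 0 → ∑ i, b i = d

/-- Let `M` be a matroid on `n` elements which has a circuit, and `J` the second symbolic power of its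
Stanley-Reisner ideal. Then `Tor_{c-1}(J, K)`, `c = n - rank M`, is nonzero at most in the multidegrees
`1_E + 1_C`, `C` a circuit; if all circuits have the same size, then it is concentrated in a single
degree. -/
theorem result : ∀ (n : ℕ) (M : Finset (Finset (Fin n))), IsMatroid M → rank M < n →
    ∀ (K : Type) [Field K],
      (∀ b : Fin n →₀ ℕ, gradedBetti (symbPow (srIdeal K M) 2) (n - rank M - 1) b ≠ 0 →
        ∃ C, IsCircuit M C ∧ b = ind (act M) + ind C) ∧
      ((∀ C C', IsCircuit M C → IsCircuit M C' → C.card = C'.card) →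
        TopTorInOneDegree (symbPow (srIdeal K M) 2) (n - rank M)) := by
  intro n M hM hn K _
  refine ⟨fun b hb => top_betti hM hn b hb, fun hc => ?_⟩
  by_cases h : ∃ C, IsCircuit M C
  · obtain ⟨C₀, hC₀⟩ := h
    refine ⟨(act M).card + C₀.card, fun b hb => ?_⟩
    obtain ⟨C, hC, rfl⟩ := top_betti hM hn b hb
    have h1 : ∀ A : Finset (Fin n), ∑ i, ind A i = A.card := fun A => by simp
    simp only [Finsupp.add_apply, Finset.sum_add_distrib]
    rw [h1, h1, hc C C₀ hC hC₀]
  · refine ⟨0, fun b hb => ?_⟩
    obtain ⟨C, hC, -⟩ := top_betti hM hn b hb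
    exact absurd ⟨C, hC⟩ h

end Pool.Agent.Results.MP_d6b0b9_al.SecondSymbolicPowerLevel
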